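import Pool.Agent.X202.Agl.Clo

set_option autoImplicit false

open scoped InnerProductSpace ENNReal
open Filter Topology

namespace Pool.Agent.Results.MP_f7d35b_an.ReducingKernels

noncomputable section

/-- `H²(𝔻²)`, by its coefficients: the square-summable double sequences. -/
abbrev H2 : Type := lp (fun _ : ℕ × ℕ => ℂ) 2

/-- the inner product `⟨g, f⟩ = ∑ₙ gₙ conj(fₙ)` of `H²(𝔻²)` -/
def ip (f g : H2) : ℂ := ∑' n : ℕ × ℕ, g.1 n * (starRingEnd ℂ) (f.1 n)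

/-- the open bidisk -/
def bidisk : Set (ℂ × ℂ) := {z | ‖z.1‖ < 1 ∧ ‖z.2‖ < 1}

/-- the value at `z` of the function with coefficients `f` -/
def val (f : H2) (z : ℂ × ℂ) : ℂ := ∑' n : ℕ × ℕ, f.1 n * z.1 ^ n.1 * z.2 ^ n.2

/-- `g = φ f` on the bidisk -/
def Times (φ : ℂ × ℂ → ℂ) (f g : H2) : Prop := ∀ z ∈ bidisk, val g z = φ z * val f z

/-- inner function: multiplication by `θ` is an isometry of `H²(𝔻²)` -/
def IsInner (θ : ℂ × ℂ → ℂ) : Prop := ∀ f : H2, ∃ g : H2, Times θ f g ∧ ‖g‖ = ‖f‖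

/-- `K_θ = H² ⊖ θ H²` -/
def modelSpace (θ : ℂ × ℂ → ℂ) : Set H2 := {h | ∀ f g, Times θ f g → ip g h = 0}

/-- `s = P_θ(p f)`, that is, `s = S_p f` when `f ∈ K_θ`; here `p` is a coordinate function -/
def IsShift (p θ : ℂ × ℂ → ℂ) (f s : H2) : Prop :=
  s ∈ modelSpace θ ∧ ∃ g, Times p f g ∧ ∀ h ∈ modelSpace θ, ip h (g - s) = 0

/-- `S` lies in `K_θ` and is invariant under `S_p` and its adjoint (`S` need not be closed) -/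
structure IsReducing (p θ : ℂ × ℂ → ℂ) (S : Set H2) : Prop where
  le : S ⊆ modelSpace θ
  inv : ∀ f ∈ S, ∀ s, IsShift p θ f s → s ∈ S
  inv_adjoint : ∀ f ∈ S, ∀ s ∈ modelSpace θ,
    (∀ h ∈ modelSpace θ, ∀ t, IsShift p θ h t → ip t f = ip h s) → s ∈ S

/-- positive kernel on the bidisk -/
def IsPositive (k : ℂ × ℂ → ℂ × ℂ → ℂ) : Prop :=
  (∀ z ∈ bidisk, ∀ w ∈ bidisk, k w z = (starRingEnd ℂ) (k z w)) ∧
  ∀ (ι : Type) [Fintype ι] (z : ι → ℂ × ℂ) (c : ι → ℂ), (∀ i, z i ∈ bidisk) →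
    0 ≤ (∑ i, ∑ j, c i * (starRingEnd ℂ) (c j) * k (z i) (z j)).re

/-- `(K₁, K₂)` is a pair of Agler kernels of `θ` -/
structure IsAglerKernels (θ : ℂ × ℂ → ℂ) (K₁ K₂ : ℂ × ℂ → ℂ × ℂ → ℂ) : Prop where
  pos₁ : IsPositive K₁
  pos₂ : IsPositive K₂
  eq : ∀ z ∈ bidisk, ∀ w ∈ bidisk, 1 - θ z * (starRingEnd ℂ) (θ w) =
    (1 - z.1 * (starRingEnd ℂ) w.1) * K₂ z w + (1 - z.2 * (starRingEnd ℂ) w.2) * K₁ z w

/-- the functions of `H²` in the reproducing kernel Hilbert space `ℋ(k)`: those `f` for which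
`C k(z, w) - f(z) conj f(w)` is a positive kernel for some `C ≥ 0` -/
def rkhs (k : ℂ × ℂ → ℂ × ℂ → ℂ) : Set H2 :=
  {f | ∃ C : ℝ, 0 ≤ C ∧
    IsPositive fun z w => (C : ℂ) * k z w - val f z * (starRingEnd ℂ) (val f w)}

/-- the Agler subspace `S₁ = ℋ(K₁(z, w) / (1 - z₁ conj w₁))` -/
def agler₁ (K₁ : ℂ × ℂ → ℂ × ℂ → ℂ) : Set H2 :=
  rkhs fun z w => K₁ z w / (1 - z.1 * (starRingEnd ℂ) w.1)

/-- the Agler subspace `S₂ = ℋ(K₂(z, w) / (1 - z₂ conj w₂))` -/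
def agler₂ (K₂ : ℂ × ℂ → ℂ × ℂ → ℂ) : Set H2 :=
  rkhs fun z w => K₂ z w / (1 - z.2 * (starRingEnd ℂ) w.2)

/-- `S_p` has reducing Agler subspaces -/
def HasReducingAgler (p θ : ℂ × ℂ → ℂ) : Prop :=
  ∃ K₁ K₂, IsAglerKernels θ K₁ K₂ ∧ IsReducing p θ (agler₁ K₁) ∧ IsReducing p θ (agler₂ K₂)

open Pool.Agent.X202 in
/-- `K_θ` is invariant under the backward shifts -/
theorem back_fst (θ : ℂ × ℂ → ℂ) : ∀ f ∈ Agl.KS θ, Agl.V' f ∈ Agl.KS θ := by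
  intro f hf a b hab
  rw [← Agl.V_inner]
  refine hf (Agl.V a) (Agl.V b) fun z hz => ?_
  rw [Agl.val_V, Agl.val_V, hab z hz]; ring

open Pool.Agent.X202 in
theorem back_snd (θ : ℂ × ℂ → ℂ) : ∀ f ∈ Agl.KS θ, Agl.W' f ∈ Agl.KS θ := by
  intro f hf a b hab
  rw [← Agl.W_inner]
  refine hf (Agl.W a) (Agl.W b) fun z hz => ?_
  rw [Agl.val_W, Agl.val_W, hab z hz]; ring

open Pool.Agent.X202 in
theorem red_fst {θ : ℂ × ℂ → ℂ} {S : Submodule ℂ H2} (h : IsReducing Prod.fst θ (S : Set H2)) :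
    (∀ f ∈ S, ∀ s ∈ Agl.KS θ, (∀ h ∈ Agl.KS θ, ⟪h, Agl.V f - s⟫_ℂ = 0) → s ∈ S) ∧
      ∀ f ∈ S, Agl.V' f ∈ S := by
  obtain ⟨le2, i2, a2⟩ := h
  constructor
  · intro f hf s hs hso
    exact i2 f hf s ⟨hs, Agl.V f, (Agl.times_fst f _).2 rfl, hso⟩
  · intro f hf
    refine a2 f hf _ (back_fst θ f (le2 hf)) ?_
    rintro h hh t ⟨ht, g, hg, ho⟩
    have hg' := (Agl.times_fst h g).1 hg
    subst hg'
    have h1 : ⟪f, Agl.V h - t⟫_ℂ = 0 := ho f (le2 hf)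
    have h2 : ⟪Agl.V h - t, f⟫_ℂ = 0 := inner_eq_zero_symm.1 h1
    rw [inner_sub_left, sub_eq_zero] at h2
    change ⟪t, f⟫_ℂ = ⟪h, Agl.V' f⟫_ℂ
    rw [← h2, Agl.V_inner]

open Pool.Agent.X202 in
theorem red_snd {θ : ℂ × ℂ → ℂ} {S : Submodule ℂ H2} (h : IsReducing Prod.snd θ (S : Set H2)) :
    (∀ f ∈ S, ∀ s ∈ Agl.KS θ, (∀ h ∈ Agl.KS θ, ⟪h, Agl.W f - s⟫_ℂ = 0) → s ∈ S) ∧
      ∀ f ∈ S, Agl.W' f ∈ S := by
  obtain ⟨le2, i2, a2⟩ := h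
  constructor
  · intro f hf s hs hso
    exact i2 f hf s ⟨hs, Agl.W f, (Agl.times_snd f _).2 rfl, hso⟩
  · intro f hf
    refine a2 f hf _ (back_snd θ f (le2 hf)) ?_
    rintro h hh t ⟨ht, g, hg, ho⟩
    have hg' := (Agl.times_snd h g).1 hg
    subst hg'
    have h1 : ⟪f, Agl.W h - t⟫_ℂ = 0 := ho f (le2 hf)
    have h2 : ⟪Agl.W h - t, f⟫_ℂ = 0 := inner_eq_zero_symm.1 h1
    rw [inner_sub_left, sub_eq_zero] at h2
    change ⟪t, f⟫_ℂ = ⟪h, Agl.W' f⟫_ℂ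
    rw [← h2, Agl.W_inner]

open Pool.Agent.X202 in
/-- The open direction of Q1, for every inner function. -/
theorem result (θ : ℂ × ℂ → ℂ) (hθ : IsInner θ)
    (h : HasReducingAgler Prod.fst θ ∨ HasReducingAgler Prod.snd θ) :
    ∃ φ ψ : ℂ → ℂ, IsInner (fun z => φ z.1) ∧ IsInner (fun z => ψ z.2) ∧
      ∀ z ∈ bidisk, θ z = φ z.1 * ψ z.2 := by
  obtain ⟨M, hM⟩ := Agl.exists_mul hθ
  rcases h with ⟨K₁, K₂, ⟨p1, p2, hid⟩, h₁, h₂⟩ | ⟨K₁, K₂, ⟨p1, p2, hid⟩, h₁, h₂⟩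
  all_goals
    have e1 : ∀ f ∈ agler₁ K₁, Agl.V f ∈ agler₁ K₁ := Agl.RK_V K₁ p1
    have e2 : ∀ f ∈ agler₂ K₂, Agl.W f ∈ agler₂ K₂ := Agl.RK_W K₂ p2
    have e3 : ∀ h ∈ Agl.KS θ, (∀ m ∈ agler₁ K₁, ⟪m, h⟫_ℂ = 0) →
        (∀ m ∈ agler₂ K₂, ⟪m, h⟫_ℂ = 0) → h = 0 :=
      fun h hh => Agl.dense_RK M hM K₁ K₂ p1 p2 hid h hh
    set S1 : Submodule ℂ H2 := Agl.RKs (fun z w => K₁ z w / (1 - z.1 * (starRingEnd ℂ) w.1))
      (Agl.Pos.div p1 Prod.fst fun z hz => hz.1)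
    set S2 : Submodule ℂ H2 := Agl.RKs (fun z w => K₂ z w / (1 - z.2 * (starRingEnd ℂ) w.2))
      (Agl.Pos.div p2 Prod.snd fun z hz => hz.2)
    change IsReducing _ θ (S1 : Set H2) at h₁
    change IsReducing _ θ (S2 : Set H2) at h₂
  · exact Agl.final_fst hθ S1 S2 h₁.le h₂.le e1 e2 (red_fst h₂).1 (red_fst h₂).2 e3
  · exact Agl.final_snd hθ S1 S2 h₁.le h₂.le e1 e2 (red_snd h₁).1 (red_snd h₁).2 e3

end

end Pool.Agent.Results.MP_f7d35b_an.ReducingKernels
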